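import Pool.Agent.TH693.CT.A
import Pool.Agent.TH693.CT.CTB
import Pool.Agent.TH693.CT.C1
import Pool.Agent.TH693.CT.C2
import Pool.Agent.TH693.CT.SC3
import Pool.Agent.TH693.CT.D0
import Pool.Agent.TH693.CT.D1

/-!
# Linear patterns of the partition function modulo 2: how often each value is taken

Euler's pentagonal number theorem modulo 2 and the square of Euler's product give sparse series;
the solutions of `a ^ 2 - 2 * b ^ 2 = D` are counted with the divisor bound.
-/

set_option autoImplicit false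

namespace Pool.Agent.Results.MP_ebc808_nt.PatternCounts

open Finset Pool.Agent.TH693.CT

/-- Let `c_0, ..., c_L` in `ZMod 2` be not all zero. The sum `c_0 p(n) + ... + c_L p(n+L)` is `0`
for at least `√x / 8` and `1` for at least `x ^ (1/2 - ε)` of the `n ≤ x`, for large `x`. -/
theorem result (L : ℕ) (c : Fin (L + 1) → ZMod 2) (hc : c ≠ 0) (ε : ℝ) (hε : 0 < ε) :
    ∃ x0 : ℕ, ∀ x : ℕ, x0 ≤ x →
      Real.sqrt x / 8 ≤ (((range (x + 1)).filter (fun n =>
        ∑ i : Fin (L + 1), c i * (Fintype.card (Nat.Partition (n + i)) : ZMod 2) = 0)).card : ℝ) ∧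
      (x : ℝ) ^ (1 / 2 - ε) ≤ (((range (x + 1)).filter (fun n =>
        ∑ i : Fin (L + 1), c i * (Fintype.card (Nat.Partition (n + i)) : ZMod 2) = 1)).card : ℝ) := by
  obtain ⟨x1, h1⟩ := sd0 (sb1 sa1) L c
  obtain ⟨x2, h2⟩ := sd1 (sb2 sa2) (sc3 sc1 sc2) L c hc ε hε
  refine ⟨max x1 x2, fun x hx => ⟨?_, ?_⟩⟩
  · have h := h1 x (le_trans (le_max_left _ _) hx)
    exact h
  · have h := h2 x (le_trans (le_max_right _ _) hx)
    exact h

end Pool.Agent.Results.MP_ebc808_nt.PatternCounts
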