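import Pool.Agent.TH693.PP.One

set_option autoImplicit false

/-!
# Linear patterns in the parity of the partition function, in short intervals (MP_ebc808_nt)

For every `L`, every nonzero `c : Fin (L + 1) → ZMod 2`, every `κ : ZMod 2` and every `A`, the
equation `∑ c i * p (n + i) = κ` modulo 2 has a solution `n` with `A ≤ n ≤ 12 * (A + 2 * L + 2)`.
For `L = 0`: `p n` takes both parities in `[A, 12 * (A + 2)]`.

Method. Let `P = ∑ p n X ^ n`, `E = 1 / P`, all modulo 2, and let a subscript 3 be the substitution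
`X → X ^ 3`. The modular equation of level 3 for the discriminant modulo 2 gives
`P P₃ = α ^ 4 + X β ^ 4`, `α = E ^ 2 / E₃`, `β = E₃ ^ 2 / E`. If `V P ≡ U (mod X ^ N)` with `U`, `V`
coprime polynomials, then the part of `U U₃ (V V₃) ^ 3` with exponents divisible by 4 is `f ^ 4` for
a polynomial `f` with `f ≡ V V₃ α`, so `f U ^ 2 ≡ V ^ 3 U₃ (mod X ^ (N / 4))`. If
`N > 12 (deg U + deg V) + 1` this is an equality, so `U ^ 2` divides `U₃`; comparing multiplicities
of the roots `β, β ^ 3, β ^ 9, …` gives `U = 1`, hence `V ≡ E (mod X ^ N)`, which is absurd. So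
`X ^ N ∣ V P - U`, `V ≠ 0`, forces `N ≤ 12 (deg U + deg V) + 1`; a run of equal values of a linear
pattern is a rational approximation of `P` with denominator of degree `L + 1`.
-/

namespace Pool.Agent.Results.MP_ebc808_nt.ShortIntervalPatterns

theorem result (L : ℕ) (c : Fin (L + 1) → ZMod 2) (hc : c ≠ 0) (κ : ZMod 2) (A : ℕ) :
    ∃ n, A ≤ n ∧ n ≤ 12 * (A + 2 * L + 2) ∧
      ∑ i : Fin (L + 1), c i * (Fintype.card (Nat.Partition (n + i)) : ZMod 2) = κ := by
  obtain ⟨n, h1, h2, h3⟩ := Pool.Agent.TH693.PP.takes (by norm_num) Pool.Agent.TH693.PP.approx1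
    L c hc κ A
  refine ⟨n, h1, h2, ?_⟩
  rw [← h3]
  refine Finset.sum_congr rfl fun i _ => ?_
  unfold Pool.Agent.TH693.PP.P
  rw [PowerSeries.coeff_mk]

end Pool.Agent.Results.MP_ebc808_nt.ShortIntervalPatterns
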