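import Pool.Agent.TH693.QQ.Main4
import Pool.Agent.TH693.QQ.QD1

set_option autoImplicit false

/-!
# The parity of the partition function in progressions and intervals of linear length (MP_ebc808_nt)

Let `M > 0` and `r` be such that `M` is a power of 2 or some value `p (M * n + r)` is odd (by Radu
2012 this is always so). There is a constant `C` such that for every `L`, every nonzero
`c : Fin (L + 1) → ZMod 2`, every `κ : ZMod 2` and every `A` the equation
`∑ c i * p (M * (n + i) + r) = κ` modulo 2 has a solution `n` with `A ≤ n ≤ C * (A + L + 1)`. For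
`L = 0`: both parities of `p` occur among the `M * n + r` with `n` in `[A, C * (A + 1)]`.

Method. Let `D = X ∏ (1 - X ^ n) ^ 24` modulo 2. (1) A Mahler type argument: if `g` satisfies a
polynomial relation between `g ^ (2 ^ J)` and `g (X ^ (3 ^ a))`, `2 ^ J < 3 ^ a`, separable in the
former, then rational approximations of `g` are bounded in terms of the heights (QA). (2) The
modular equation of level 3 and field theory give such a relation for every `g` that is algebraic
over `F_2(X, D)` and transcendental over `F_2(X)` (QB). (3) `D` is transcendental over `F_2(X)`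
(QC). (4) The sections of `D` modulo powers of two are theta series with characteristics, integral
over `F_2[D]` by a duplication formula (QD1, QD); the sections modulo odd numbers are obtained from
values of theta functions at torsion points, which are periodic points of a rational map over
`F_2(D)` (T1-T4). So the section `c` of `P` satisfies: `c ^ 24 / X` is algebraic over `F_2(D)`.
(5) If `c ≠ 0` were algebraic over `F_2(X)`, `c ^ 24 / X` would be a root of unity, which is
impossible by valuations (T5). (6) For powers of two `c ≠ 0` follows from the theory of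
Nicolas-Serre (starting file `H307R2/OP`) and Dirichlet's theorem (QN).
-/

namespace Pool.Agent.Results.MP_ebc808_nt.ShortIntervalsProgressions

theorem result (M r : ℕ) (hM : 0 < M)
    (h : (∃ k, M = 2 ^ k) ∨ ∃ n, Odd (Fintype.card (Nat.Partition (M * n + r)))) :
    ∃ C : ℕ, ∀ (L : ℕ) (c : Fin (L + 1) → ZMod 2), c ≠ 0 → ∀ (κ : ZMod 2) (A : ℕ),
      ∃ n, A ≤ n ∧ n ≤ C * (A + L + 1) ∧
        ∑ i : Fin (L + 1), c i * (Fintype.card (Nat.Partition (M * (n + i) + r)) : ZMod 2) = κ := by
  have h' : (∃ k, M = 2 ^ k) ∨ ∃ n, Odd (Pool.Agent.H413R3.Part.mp 1 (M * n + r)) := by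
    rcases h with h | ⟨n, hn⟩
    · exact Or.inl h
    · exact Or.inr ⟨n, by rw [Pool.Agent.H413R3.Part.mp_one]; exact hn⟩
  obtain ⟨C, hC⟩ := Pool.Agent.TH693.QQ.final_mp Pool.Agent.TH693.QQ.D1.qd1 odd_one M r hM h'
  refine ⟨C, fun L c hc κ A => ?_⟩
  obtain ⟨n, h1, h2, h3⟩ := hC L c hc κ A
  refine ⟨n, h1, h2, ?_⟩
  rw [← h3]
  exact Finset.sum_congr rfl fun i _ => by rw [Pool.Agent.H413R3.Part.mp_one]

end Pool.Agent.Results.MP_ebc808_nt.ShortIntervalsProgressions
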